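import Pool.Agent.ZRT.StmtsA
import Pool.Agent.Helper60_MVS.UNQ
import Pool.Agent.Helper5_RF.Diffeo
import Pool.Agent.Helper36_RF.Chr

/-!
# ZRT row XIS: isometries map geodesics to geodesics
-/

noncomputable section

open scoped ContDiff Topology RealInnerProductSpace
set_option maxSynthPendingDepth 3
open Set

namespace Pool.Agent.ZRT.H40

open Pool.Agent.RF Pool.Agent.RF.H5 Pool.Agent.MVS Pool.Agent.ZRT

variable {G : E5 → Bil E5} {f : E5 → E5}

theorem isoC_mem (hf : IsIsoC G f) {x : E5} (hx : x ∈ Om (Fin 5)) : f x ∈ Om (Fin 5) := by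
  intro h0
  apply hx
  have h1 := hf.norm x
  rw [h0, norm_zero] at h1
  exact norm_eq_zero.mp h1.symm

theorem isoC_inj (hG : IsCyl G) (hf : IsIsoC G f) {x : E5} (hx : x ∈ Om (Fin 5)) :
    Function.Injective (fderiv ℝ f x) := by
  rw [injective_iff_map_eq_zero]
  intro v hv
  by_contra hne
  have h1 := hG.metric.pos x hx v hne
  rw [← hf.pres x hx v v, hv] at h1
  simp at h1

theorem isoC_invertible (hG : IsCyl G) (hf : IsIsoC G f) {x : E5} (hx : x ∈ Om (Fin 5)) :
    (fderiv ℝ f x).IsInvertible := by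
  refine ⟨(LinearEquiv.ofInjectiveEndo (fderiv ℝ f x : E5 →ₗ[ℝ] E5)
    (isoC_inj hG hf hx)).toContinuousLinearEquiv, ?_⟩
  ext v
  rfl

/-- the equation for the second derivative of an isometry -/
theorem isoC_star (hG : IsCyl G) (hf : IsIsoC G f) {x : E5} (hx : x ∈ Om (Fin 5)) (v w : E5) :
    fderiv ℝ (fderiv ℝ f) x v w + chris G (f x) (fderiv ℝ f x v) (fderiv ℝ f x w)
      = fderiv ℝ f x (chris G x v w) := by
  have hU : IsOpen (Om (Fin 5)) := hG.metric.isOpen
  have h1 := (diffeo chrStatement (nat chrStatement) (Fin 5) (Fin 5) G f (Om (Fin 5))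
    (Om (Fin 5)) hG.metric hU hf.smooth (fun x hx => isoC_mem hf hx)
    (fun y hy => isoC_invertible hG hf hy)).2.1 x hx v w
  rw [fd2_eq (psi_contDiffAt hU hf.smooth hx)] at h1
  have hev : pullb G f =ᶠ[𝓝 x] G := by
    filter_upwards [hU.mem_nhds hx] with y hy
    ext a b
    exact hf.pres y hy a b
  have h2 : chris (pullb G f) x v w = chris G x v w := by
    unfold chris
    rw [hev.fderiv_eq, hev.self_of_nhds]
  rw [h2] at h1
  exact h1

/-- **Row XIS.** -/
theorem xis : XisStatement := by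
  intro G ex f hG he hf m hm v
  have hU : IsOpen (Om (Fin 5)) := hG.metric.isOpen
  have hfm := isoC_mem hf hm
  have hsm : ∀ x ∈ Om (Fin 5), ∀ u : E5, ContDiff ℝ ∞ (fun s : ℝ => ex (x, s • u)) := by
    intro x hx u
    exact he.smooth.comp_contDiff (contDiff_const.prodMk (contDiff_id.smul contDiff_const))
      (fun s => ⟨hx, mem_univ _⟩)
  have hd1 : ∀ x ∈ Om (Fin 5), ∀ u : E5, ∀ t : ℝ, HasDerivAt (fun s : ℝ => ex (x, s • u))
      (deriv (fun s : ℝ => ex (x, s • u)) t) t := by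
    intro x hx u t
    exact ((hsm x hx u).differentiable (by simp) t).hasDerivAt
  have hd2 : ∀ x ∈ Om (Fin 5), ∀ u : E5, ∀ t : ℝ,
      HasDerivAt (deriv (fun s : ℝ => ex (x, s • u)))
      (- chris G (ex (x, t • u)) (deriv (fun s : ℝ => ex (x, s • u)) t)
          (deriv (fun s : ℝ => ex (x, s • u)) t)) t := by
    intro x hx u t
    have h1 : ContDiff ℝ ∞ (deriv (fun s : ℝ => ex (x, s • u))) :=
      (contDiff_infty_iff_deriv.mp (hsm x hx u)).2
    have h2 := (h1.differentiable (by simp) t).hasDerivAt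
    rw [he.geo x hx u t] at h2
    exact h2
  set γ : ℝ → E5 := fun s => ex (m, s • v) with hγ
  have hγm : ∀ t, γ t ∈ Om (Fin 5) := fun t => he.mem m hm _
  have hγ1 : ∀ t, HasDerivAt γ (deriv γ t) t := hd1 m hm v
  have hγ2 : ∀ t, HasDerivAt (deriv γ) (- chris G (γ t) (deriv γ t) (deriv γ t)) t := hd2 m hm v
  have hc1 : ∀ t, HasDerivAt (fun s => f (γ s)) (fderiv ℝ f (γ t) (deriv γ t)) t := by
    intro t
    have h1 : HasFDerivAt f (fderiv ℝ f (γ t)) (γ t) :=
      ((psi_contDiffAt hU hf.smooth (hγm t)).differentiableAt (by simp)).hasFDerivAt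
    exact h1.comp_hasDerivAt t (hγ1 t)
  have hc2 : ∀ t, HasDerivAt (fun s => fderiv ℝ f (γ s) (deriv γ s))
      (- chris G (f (γ t)) (fderiv ℝ f (γ t) (deriv γ t)) (fderiv ℝ f (γ t) (deriv γ t))) t := by
    intro t
    have h1 : HasFDerivAt (fderiv ℝ f) (fderiv ℝ (fderiv ℝ f) (γ t)) (γ t) :=
      ((fd_contDiffAt (psi_contDiffAt hU hf.smooth (hγm t))).differentiableAt
        (by simp)).hasFDerivAt
    have h2 : HasDerivAt (fun s => fderiv ℝ f (γ s))
        (fderiv ℝ (fderiv ℝ f) (γ t) (deriv γ t)) t := h1.comp_hasDerivAt t (hγ1 t)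
    have h3 := h2.clm_apply (hγ2 t)
    have h4 := isoC_star hG hf (hγm t) (deriv γ t) (deriv γ t)
    refine h3.congr_deriv ?_
    rw [map_neg, ← h4]
    abel
  have key := Pool.Agent.MVS.H60.unq G hG 1 zero_le_one (fun s => f (γ s))
    (fun s => ex (f m, s • fderiv ℝ f m v)) (fun s => fderiv ℝ f (γ s) (deriv γ s))
    (deriv (fun s => ex (f m, s • fderiv ℝ f m v)))
    (fun t _ => ⟨isoC_mem hf (hγm t), he.mem _ hfm _⟩)
    (fun t _ => ⟨(hc1 t).hasDerivWithinAt, (hc2 t).hasDerivWithinAt⟩)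
    (fun t _ => ⟨(hd1 _ hfm _ t).hasDerivWithinAt, (hd2 _ hfm _ t).hasDerivWithinAt⟩)
    (by simp only [hγ, zero_smul, he.zero m hm, he.zero _ hfm])
    (by
      rw [he.init _ hfm]
      have h5 : deriv γ 0 = v := he.init m hm v
      have h6 : γ 0 = m := by simp only [hγ, zero_smul, he.zero m hm]
      rw [h5, h6])
    1 ⟨zero_le_one, le_rfl⟩
  have h7 := key.1
  simp only [hγ, one_smul] at h7
  exact h7

end Pool.Agent.ZRT.H40
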